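import Pool.Agent.Helper58.DM.Goals

/-!
# Project DM, packet M_ONB: orthonormal bases exist
-/

set_option autoImplicit false

namespace Pool.Agent.Helper49.DM

open Matrix Pool.Agent.Helper58.DH Pool.Agent.Helper58.DM

section

variable {I : Type} [Fintype I] [DecidableEq I] (F : Frame I) (w : Fin 6 → ℝ)

theorem comp_add (c : Fin 6) (X Y : Matrix I I ℂ) : comp F c (X + Y) = comp F c X + comp F c Y := by
  ext i j
  simp only [Helper58.DM.comp, Matrix.add_apply]
  split_ifs <;> simp

theorem comp_smul (c : Fin 6) (r : ℝ) (X : Matrix I I ℂ) : comp F c (r • X) = r • comp F c X := by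
  ext i j
  simp only [Helper58.DM.comp, Matrix.smul_apply]
  split_ifs <;> simp

theorem B_comm (X Y : Matrix I I ℂ) : B F X Y = B F Y X := by
  unfold B
  rw [Matrix.trace_mul_comm]

theorem B_add (X Y Z : Matrix I I ℂ) : B F (X + Y) Z = B F X Z + B F Y Z := by
  unfold B
  rw [Matrix.add_mul, Matrix.trace_add, Complex.add_re]
  ring

theorem B_smul (r : ℝ) (X Y : Matrix I I ℂ) : B F (r • X) Y = r * B F X Y := by
  unfold B
  rw [Matrix.smul_mul, Matrix.trace_smul, Complex.smul_re, smul_eq_mul]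
  ring

theorem gx_comm (X Y : Matrix I I ℂ) : gx F w X Y = gx F w Y X := by
  unfold gx
  exact Finset.sum_congr rfl fun c _ ↦ by rw [B_comm]

theorem gx_add (X Y Z : Matrix I I ℂ) : gx F w (X + Y) Z = gx F w X Z + gx F w Y Z := by
  unfold gx
  rw [← Finset.sum_add_distrib]
  exact Finset.sum_congr rfl fun c _ ↦ by rw [comp_add, B_add, mul_add]

theorem gx_smul (r : ℝ) (X Y : Matrix I I ℂ) : gx F w (r • X) Y = r * gx F w X Y := by
  unfold gx
  rw [Finset.mul_sum]
  exact Finset.sum_congr rfl fun c _ ↦ by rw [comp_smul, B_smul]; ring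

variable {F w}

theorem gx_self (h1 : M_ENT) (hk : 0 < kk F) {X : Matrix I I ℂ} (hX : Xᴴ = -X) :
    gx F w X X = kk F * ∑ i, ∑ j, xx F w i j * Complex.normSq (X i j) := by
  have h2 := (h1 I F hk).2.2.1 w X X hX hX
  rw [← Complex.ofReal_inj, h2]
  unfold Gc
  push_cast
  rw [neg_mul, ← mul_neg]
  congr 1
  rw [← Finset.sum_neg_distrib]
  refine Finset.sum_congr rfl fun i _ ↦ ?_
  rw [← Finset.sum_neg_distrib]
  refine Finset.sum_congr rfl fun j _ ↦ ?_
  have h3 : (Xᴴ) j i = (-X) j i := by rw [hX]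
  rw [Matrix.conjTranspose_apply, Matrix.neg_apply] at h3
  have h4 : X j i = -star (X i j) := by rw [h3, neg_neg]
  rw [h4, Complex.normSq_eq_conj_mul_self, Complex.star_def]
  ring

theorem xx_pos (hw : ∀ c, 0 < w c) {i j : I} (h : F.bl i ≠ F.bl j) : 0 < xx F w i j := by
  have h1 : ∀ a b : Fin 5, a ≠ b → cls a b ≠ none := by decide
  obtain ⟨c, hc⟩ := Option.ne_none_iff_exists'.1 (h1 _ _ h)
  unfold xx
  rw [hc]
  exact hw c

theorem xx_nonneg (hw : ∀ c, 0 < w c) (i j : I) : 0 ≤ xx F w i j := by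
  unfold xx
  cases h : cls (F.bl i) (F.bl j) with
  | none => exact le_rfl
  | some c => exact (hw c).le

end

theorem m_onb (h1 : M_ENT) : M_ONB := by
  intro I _ _ F w hk hw
  obtain ⟨-, hfm, -⟩ := h1 I F hk
  let M : Submodule ℝ (Matrix I I ℂ) :=
    { carrier := fm F
      add_mem' := by
        intro X Y hX hY
        rw [hfm] at hX hY ⊢
        obtain ⟨⟨x1, x2⟩, x3⟩ := hX
        obtain ⟨⟨y1, y2⟩, y3⟩ := hY
        refine ⟨⟨?_, fun i j ↦ ?_⟩, fun i j hij ↦ ?_⟩
        · rw [Matrix.conjTranspose_add, x1, y1]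
          abel
        · rw [Matrix.add_apply, Matrix.add_apply, x2, y2]
          ring
        · rw [Matrix.add_apply, x3 i j hij, y3 i j hij, add_zero]
      zero_mem' := by
        rw [hfm]
        refine ⟨⟨by simp, fun i j ↦ by simp⟩, fun i j _ ↦ rfl⟩
      smul_mem' := by
        intro r X hX
        rw [hfm] at hX ⊢
        obtain ⟨⟨x1, x2⟩, x3⟩ := hX
        refine ⟨⟨?_, fun i j ↦ ?_⟩, fun i j hij ↦ ?_⟩
        · rw [Matrix.conjTranspose_smul, x1, smul_neg, star_trivial]
        · rw [Matrix.smul_apply, Matrix.smul_apply, x2, mul_smul_comm]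
        · rw [Matrix.smul_apply, x3 i j hij, smul_zero] }
  have hMm : ∀ X, X ∈ M ↔ X ∈ fm F := fun X ↦ Iff.rfl
  have hself : ∀ X : M, gx F w X.1 X.1 =
      kk F * ∑ i, ∑ j, xx F w i j * Complex.normSq (X.1 i j) := fun X ↦
    gx_self h1 hk ((hfm X.1).1 X.2).1.1
  let core : InnerProductSpace.Core ℝ M :=
    { inner := fun X Y ↦ gx F w X.1 Y.1
      conj_inner_symm := fun X Y ↦ by
        simp only [conj_trivial]
        exact gx_comm F w Y.1 X.1
      re_inner_nonneg := fun X ↦ by
        simp only [RCLike.re_to_real]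
        rw [hself X]
        refine mul_nonneg hk.le (Finset.sum_nonneg fun i _ ↦ Finset.sum_nonneg fun j _ ↦ ?_)
        exact mul_nonneg (xx_nonneg hw i j) (Complex.normSq_nonneg _)
      add_left := fun X Y Z ↦ gx_add F w X.1 Y.1 Z.1
      smul_left := fun X Y r ↦ by
        simp only [conj_trivial]
        exact gx_smul F w r X.1 Y.1
      definite := fun X hX ↦ by
        change gx F w X.1 X.1 = 0 at hX
        rw [hself X] at hX
        have h2 := (mul_eq_zero.1 hX).resolve_left hk.ne'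
        have hnn : ∀ i j, 0 ≤ xx F w i j * Complex.normSq (X.1 i j) := fun i j ↦
          mul_nonneg (xx_nonneg hw i j) (Complex.normSq_nonneg _)
        rw [Finset.sum_eq_zero_iff_of_nonneg fun i _ ↦ Finset.sum_nonneg fun j _ ↦ hnn i j] at h2
        refine Subtype.ext (Matrix.ext fun i j ↦ ?_)
        by_cases hij : F.bl i = F.bl j
        · exact ((hfm X.1).1 X.2).2 i j hij
        · have h3 := h2 i (Finset.mem_univ i)
          rw [Finset.sum_eq_zero_iff_of_nonneg fun j _ ↦ hnn i j] at h3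
          have h4 := (mul_eq_zero.1 (h3 j (Finset.mem_univ j))).resolve_left (xx_pos hw hij).ne'
          exact Complex.normSq_eq_zero.1 h4 }
  letI : NormedAddCommGroup M := core.toNormedAddCommGroup
  letI : InnerProductSpace ℝ M := InnerProductSpace.ofCore core.toCore
  haveI : FiniteDimensional ℝ M := inferInstance
  let b := stdOrthonormalBasis ℝ M
  have hinner : ∀ X Y : M, inner ℝ X Y = gx F w X.1 Y.1 := fun X Y ↦ rfl
  refine ⟨Module.finrank ℝ M, fun j ↦ (b j : Matrix I I ℂ), fun j ↦ (b j).2, fun i j ↦ ?_,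
    fun X hX ↦ ?_⟩
  · rw [← hinner]
    exact orthonormal_iff_ite.1 b.orthonormal i j
  · have h2 := b.sum_repr ⟨X, hX⟩
    have h3 : X = ∑ i, b.repr ⟨X, hX⟩ i • (b i : Matrix I I ℂ) := by
      have h4 := congrArg (fun Y : M ↦ (Y : Matrix I I ℂ)) h2
      simp only [Submodule.coe_sum, Submodule.coe_smul] at h4
      exact h4.symm
    rw [h3]
    exact Submodule.sum_mem _ fun i _ ↦ Submodule.smul_mem _ _ (Submodule.subset_span ⟨i, rfl⟩)

end Pool.Agent.Helper49.DM
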